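import Mathlib

set_option autoImplicit false

open MeasureTheory Set Filter
open scoped ENNReal NNReal InnerProductSpace

namespace Pool.Agent.Results.MP_0ee9ff_an.NormalCarleman

/-- `ν` is the kernel of the operator `N` on `Lp ℂ 2 μ` (auxiliary version, used in the proofs). -/
structure IsCarlemanAux {X : Type*} [MeasurableSpace X] (μ : Measure X)
    (N : Lp ℂ 2 μ → Lp ℂ 2 μ) (ν : X → X → ℂ) : Prop where
  aemeasurable : AEMeasurable (Function.uncurry ν) (μ.prod μ)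
  row : ∀ᵐ x ∂μ, ∫⁻ y, ‖ν x y‖ₑ ^ 2 ∂μ < ⊤
  repr : ∀ f : Lp ℂ 2 μ, ∀ᵐ x ∂μ, (N f : X → ℂ) x = ∫ y, ν x y * (f : X → ℂ) y ∂μ

section Basis

variable {H : Type*} [NormedAddCommGroup H] [InnerProductSpace ℂ H]

theorem parseval {ι : Type*} (b : HilbertBasis ι ℂ H) (h : H) :
    ∑' i, ‖⟪b i, h⟫_ℂ‖ₑ ^ 2 = ‖h‖ₑ ^ 2 := by
  have h1 := b.hasSum_inner_mul_inner h h
  have h2 : HasSum (fun i => ‖⟪b i, h⟫_ℂ‖ ^ 2) (‖h‖ ^ 2) := by
    have h3 := Complex.hasSum_re h1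
    have e1 : ∀ i, (⟪h, b i⟫_ℂ * ⟪b i, h⟫_ℂ).re = ‖⟪b i, h⟫_ℂ‖ ^ 2 := by
      intro i
      rw [← inner_conj_symm h (b i), mul_comm, Complex.mul_conj, Complex.ofReal_re,
        Complex.normSq_eq_norm_sq]
    have e2 : (⟪h, h⟫_ℂ).re = ‖h‖ ^ 2 := by
      rw [inner_self_eq_norm_sq_to_K]
      norm_cast
    simpa only [e1, e2] using h3
  have h4 : ∑' i, ENNReal.ofReal (‖⟪b i, h⟫_ℂ‖ ^ 2) = ENNReal.ofReal (‖h‖ ^ 2) := by
    rw [← h2.tsum_eq, ENNReal.ofReal_tsum_of_nonneg (fun i => by positivity) h2.summable]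
  have e3 : ∀ x : ℝ, 0 ≤ x → ENNReal.ofReal (x ^ 2) = ENNReal.ofReal x ^ 2 := fun x hx =>
    ENNReal.ofReal_pow hx 2
  simp only [e3 _ (norm_nonneg _), ofReal_norm] at h4
  exact h4

theorem countable_basis [SecondCountableTopology H] {w : Set H} (hw : Orthonormal ℂ ((↑) : w → H)) :
    w.Countable := by
  apply Set.PairwiseDisjoint.countable_of_isOpen (s := fun x : H => Metric.ball x (1 / 2))
  · intro x hx y hy hxy
    apply Metric.ball_disjoint_ball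
    have h1 : ‖x‖ = 1 := hw.1 ⟨x, hx⟩
    have h2 : ‖y‖ = 1 := hw.1 ⟨y, hy⟩
    have h3 : ⟪x, y⟫_ℂ = 0 := hw.2 (i := ⟨x, hx⟩) (j := ⟨y, hy⟩) (by simpa using hxy)
    rw [dist_eq_norm]
    have h4 : ‖x - y‖ ^ 2 = 2 := by
      have := norm_sub_sq (𝕜 := ℂ) x y
      rw [this, h1, h2, h3]
      norm_num
    nlinarith [norm_nonneg (x - y)]
  · intro x _
    exact Metric.isOpen_ball
  · intro x _
    exact ⟨x, by simp⟩

end Basis

section Main

variable {X : Type*} [MeasurableSpace X] {μ : Measure X}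

theorem enorm_sq_eq_lintegral (f : Lp ℂ 2 μ) : ‖f‖ₑ ^ 2 = ∫⁻ x, ‖(f : X → ℂ) x‖ₑ ^ 2 ∂μ := by
  rw [Lp.enorm_def, eLpNorm_eq_lintegral_rpow_enorm_toReal (by norm_num) (by norm_num)]
  rw [← ENNReal.rpow_natCast, ← ENNReal.rpow_mul]
  norm_num

/-- `χ_E f` -/
noncomputable def cut (E : Set X) (hE : MeasurableSet E) (f : Lp ℂ 2 μ) : Lp ℂ 2 μ :=
  ((Lp.memLp f).indicator hE).toLp _

theorem cut_ae (E : Set X) (hE : MeasurableSet E) (f : Lp ℂ 2 μ) :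
    (cut E hE f : X → ℂ) =ᵐ[μ] E.indicator f :=
  MemLp.coeFn_toLp _

theorem inner_cut (E : Set X) (hE : MeasurableSet E) (f g : Lp ℂ 2 μ) :
    ⟪f, cut E hE g⟫_ℂ = ⟪cut E hE f, g⟫_ℂ := by
  rw [L2.inner_def, L2.inner_def]
  apply integral_congr_ae
  filter_upwards [cut_ae E hE f, cut_ae E hE g] with x h1 h2
  rw [h1, h2]
  by_cases hx : x ∈ E <;> simp [hx]

/-- Parseval for a row of the kernel. -/
theorem row_parseval {ι : Type*} (b : HilbertBasis ι ℂ (Lp ℂ 2 μ)) (k : X → ℂ)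
    (hk : AEStronglyMeasurable k μ) (hk2 : ∫⁻ y, ‖k y‖ₑ ^ 2 ∂μ < ⊤) :
    ∑' i, ‖∫ y, k y * (b i : X → ℂ) y ∂μ‖ₑ ^ 2 = ∫⁻ y, ‖k y‖ₑ ^ 2 ∂μ := by
  have hm : MemLp (fun y => (starRingEnd ℂ) (k y)) 2 μ := by
    refine ⟨(Complex.continuous_conj.comp_aestronglyMeasurable hk), ?_⟩
    rw [eLpNorm_eq_lintegral_rpow_enorm_toReal (by norm_num) (by norm_num)]
    apply ENNReal.rpow_lt_top_of_nonneg (by norm_num)
    have : ∀ y, ‖(starRingEnd ℂ) (k y)‖ₑ ^ (2 : ℝ≥0∞).toReal = ‖k y‖ₑ ^ 2 := by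
      intro y
      rw [RCLike.enorm_conj]
      norm_num
    simp only [this]
    exact hk2.ne
  set h : Lp ℂ 2 μ := hm.toLp _ with hh
  have h1 := parseval b h
  rw [enorm_sq_eq_lintegral] at h1
  have h2 : ∫⁻ x, ‖(h : X → ℂ) x‖ₑ ^ 2 ∂μ = ∫⁻ y, ‖k y‖ₑ ^ 2 ∂μ := by
    apply lintegral_congr_ae
    filter_upwards [hm.coeFn_toLp] with x hx
    rw [hx, RCLike.enorm_conj]
  rw [h2] at h1
  rw [← h1]
  congr 1
  ext i
  congr 1
  have h3 : ⟪h, b i⟫_ℂ = ∫ y, k y * (b i : X → ℂ) y ∂μ := by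
    rw [L2.inner_def]
    apply integral_congr_ae
    filter_upwards [hm.coeFn_toLp] with x hx
    rw [hx]
    simp [mul_comm]
  rw [← h3, ← inner_conj_symm, RCLike.enorm_conj]

variable [MeasurableSpace.CountablyGenerated X] [SigmaFinite μ]

theorem rowsum_eq (N M : Lp ℂ 2 μ → Lp ℂ 2 μ) (ν : X → X → ℂ) (hν : IsCarlemanAux μ N ν)
    (hM : ∀ f g, ⟪M f, g⟫_ℂ = ⟪f, N g⟫_ℂ) (hN : ∀ f, ‖M f‖ = ‖N f‖) :
    (fun y => ∫⁻ x, ‖ν x y‖ₑ ^ 2 ∂μ) =ᵐ[μ] fun y => ∫⁻ x, ‖ν y x‖ₑ ^ 2 ∂μ := by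
  classical
  have : Fact ((2 : ℝ≥0∞) ≠ ∞) := ⟨by norm_num⟩
  obtain ⟨w, b, hb⟩ := exists_hilbertBasis ℂ (Lp ℂ 2 μ)
  have hwc : w.Countable := by
    apply countable_basis
    have := b.orthonormal
    rwa [hb] at this
  have : Countable w := hwc.to_subtype
  have hm2 : AEMeasurable (fun p : X × X => ‖ν p.1 p.2‖ₑ ^ 2) (μ.prod μ) := by
    have := hν.aemeasurable
    exact (this.enorm.pow_const 2)
  have hm2' : AEMeasurable (fun p : X × X => ‖ν p.2 p.1‖ₑ ^ 2) (μ.prod μ) :=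
    hm2.comp_quasiMeasurePreserving Measure.measurePreserving_swap.quasiMeasurePreserving
  have hrowm : ∀ᵐ x ∂μ, AEStronglyMeasurable (ν x) μ :=
    hν.aemeasurable.aestronglyMeasurable.prodMk_left
  refine ae_eq_of_forall_setLIntegral_eq_of_sigmaFinite₀ ?_ ?_ ?_
  · exact hm2'.lintegral_prod_right'
  · exact hm2.lintegral_prod_right'
  intro E hE _
  -- the sum over the basis, for the operator `N`
  have S1 : ∑' i : w, ‖N (cut E hE (b i))‖ₑ ^ 2 = ∫⁻ y in E, ∫⁻ x, ‖ν x y‖ₑ ^ 2 ∂μ ∂μ := by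
    have e1 : ∀ i : w, ‖N (cut E hE (b i))‖ₑ ^ 2
        = ∫⁻ x, ‖∫ y, E.indicator (ν x) y * (b i : X → ℂ) y ∂μ‖ₑ ^ 2 ∂μ := by
      intro i
      rw [enorm_sq_eq_lintegral]
      apply lintegral_congr_ae
      filter_upwards [hν.repr (cut E hE (b i))] with x hx
      rw [hx]
      congr 2
      apply integral_congr_ae
      filter_upwards [cut_ae E hE (b i)] with y hy
      rw [hy]
      by_cases hyE : y ∈ E <;> simp [hyE]
    simp_rw [e1]
    rw [← lintegral_tsum]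
    · have e2 : ∀ᵐ x ∂μ, ∑' i : w, ‖∫ y, E.indicator (ν x) y * (b i : X → ℂ) y ∂μ‖ₑ ^ 2
          = ∫⁻ y in E, ‖ν x y‖ₑ ^ 2 ∂μ := by
        filter_upwards [hrowm, hν.row] with x hx1 hx2
        have e3 : ∀ y, ‖E.indicator (ν x) y‖ₑ ^ 2 = E.indicator (fun y => ‖ν x y‖ₑ ^ 2) y := by
          intro y
          by_cases hyE : y ∈ E <;> simp [hyE]
        rw [row_parseval b _ (hx1.indicator hE)]
        · simp_rw [e3]
          rw [lintegral_indicator hE]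
        · simp_rw [e3]
          rw [lintegral_indicator hE]
          exact lt_of_le_of_lt (setLIntegral_le_lintegral _ _) hx2
      rw [lintegral_congr_ae e2]
      rw [lintegral_lintegral_swap]
      have hle : (μ.prod (μ.restrict E)) ≤ μ.prod μ := by
        exact Measure.prod_mono le_rfl Measure.restrict_le_self
      exact hm2.mono_measure hle
    · intro i
      have h1 : AEStronglyMeasurable (fun x => (N (cut E hE (b i)) : X → ℂ) x) μ :=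
        Lp.aestronglyMeasurable _
      have h2 : (fun x => (N (cut E hE (b i)) : X → ℂ) x) =ᵐ[μ]
          fun x => ∫ y, E.indicator (ν x) y * (b i : X → ℂ) y ∂μ := by
        filter_upwards [hν.repr (cut E hE (b i))] with x hx
        rw [hx]
        apply integral_congr_ae
        filter_upwards [cut_ae E hE (b i)] with y hy
        rw [hy]
        by_cases hyE : y ∈ E <;> simp [hyE]
      exact ((h1.congr h2).enorm.pow_const 2)
  have S2 : ∑' i : w, ‖M (cut E hE (b i))‖ₑ ^ 2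
      = ∫⁻ x in E, ∫⁻ y, ‖ν x y‖ₑ ^ 2 ∂μ ∂μ := by
    have e1 : ∀ i : w, ‖M (cut E hE (b i))‖ₑ ^ 2
        = ∑' j : w, ‖⟪b i, cut E hE (N (b j))⟫_ℂ‖ₑ ^ 2 := by
      intro i
      rw [← parseval b]
      congr 1
      ext j
      rw [inner_cut, ← hM, ← inner_conj_symm, RCLike.enorm_conj]
    simp_rw [e1]
    rw [ENNReal.tsum_comm]
    simp_rw [parseval b]
    have e2 : ∀ j : w, ‖cut E hE (N (b j))‖ₑ ^ 2
        = ∫⁻ x in E, ‖∫ y, ν x y * (b j : X → ℂ) y ∂μ‖ₑ ^ 2 ∂μ := by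
      intro j
      rw [enorm_sq_eq_lintegral, ← lintegral_indicator hE]
      apply lintegral_congr_ae
      filter_upwards [cut_ae E hE (N (b j)), hν.repr (b j)] with x h1 h2
      rw [h1]
      by_cases hx : x ∈ E
      · simp [hx, h2]
      · simp [hx]
    simp_rw [e2]
    rw [← lintegral_tsum]
    · apply setLIntegral_congr_fun_ae hE
      filter_upwards [hrowm, hν.row] with x hx1 hx2 _
      exact row_parseval b _ hx1 hx2
    · intro j
      have h1 : AEStronglyMeasurable (fun x => (N (b j) : X → ℂ) x) μ :=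
        Lp.aestronglyMeasurable _
      exact ((h1.congr (hν.repr (b j))).enorm.pow_const 2).restrict
  have key : ∑' i : w, ‖N (cut E hE (b i))‖ₑ ^ 2
      = ∑' i : w, ‖M (cut E hE (b i))‖ₑ ^ 2 := by
    congr 1
    ext i
    congr 1
    rw [← ofReal_norm, ← ofReal_norm, hN]
  rw [← S1, key, S2]

end Main

/-- Lebesgue measure on the interval `(a,b)`, `-∞ ≤ a < b ≤ ∞`. -/
noncomputable def leb (a b : EReal) : Measure ℝ :=
  volume.restrict {x : ℝ | a < (x : EReal) ∧ (x : EReal) < b}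

instance (a b : EReal) : SigmaFinite (leb a b) := by
  unfold leb
  infer_instance

/-- `N` is a bounded operator on `L²(μ)`, described on representatives: it maps square-integrable
functions to square-integrable functions, respects almost everywhere equality, is linear (almost
everywhere) and bounded. -/
structure IsBddOp (μ : Measure ℝ) (N : (ℝ → ℂ) → ℝ → ℂ) : Prop where
  memLp : ∀ f, MemLp f 2 μ → MemLp (N f) 2 μ
  congr : ∀ f g, MemLp f 2 μ → f =ᵐ[μ] g → N f =ᵐ[μ] N g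
  add : ∀ f g, MemLp f 2 μ → MemLp g 2 μ → N (f + g) =ᵐ[μ] N f + N g
  smul : ∀ (c : ℂ) (f), MemLp f 2 μ → N (c • f) =ᵐ[μ] c • N f
  bound : ∃ C : ℝ≥0, ∀ f, MemLp f 2 μ → eLpNorm (N f) 2 μ ≤ C * eLpNorm f 2 μ

/-- `N` is a normal bounded operator on `L²(μ)`: it commutes with its adjoint `M`. -/
def IsNormalOp (μ : Measure ℝ) (N : (ℝ → ℂ) → ℝ → ℂ) : Prop :=
  IsBddOp μ N ∧ ∃ M, IsBddOp μ M ∧
    (∀ f g, MemLp f 2 μ → MemLp g 2 μ →
      ∫ x, M f x * (starRingEnd ℂ) (g x) ∂μ = ∫ x, f x * (starRingEnd ℂ) (N g x) ∂μ) ∧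
    ∀ f, MemLp f 2 μ → N (M f) =ᵐ[μ] M (N f)

/-- `∫ |k(x)|² dμ(x)` -/
noncomputable def sqInt (μ : Measure ℝ) (k : ℝ → ℂ) : ℝ≥0∞ := ∫⁻ x, ‖k x‖ₑ ^ 2 ∂μ

/-- `N` is a Carleman operator with kernel `ν` on `L²(μ)`: `ν` is measurable (up to a null set of the
product measure), `∫ |ν(x,y)|² dy < ∞` for almost every `x`, and `(N f)(x) = ∫ ν(x,y) f(y) dy` for
every `f ∈ L²(μ)` and almost every `x`. -/
def IsCarleman (μ : Measure ℝ) (N : (ℝ → ℂ) → ℝ → ℂ) (ν : ℝ → ℝ → ℂ) : Prop :=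
  AEMeasurable (Function.uncurry ν) (μ.prod μ) ∧ (∀ᵐ x ∂μ, sqInt μ (ν x) < ⊤) ∧
  ∀ f, MemLp f 2 μ → ∀ᵐ x ∂μ, N f x = ∫ y, ν x y * f y ∂μ

/-- **No normal Carleman operator has a kernel which is not square-integrable in the first variable.**
For a normal Carleman operator `N` on `L²(a,b)` with kernel `ν`, the `y`-th column and the `y`-th row
of the kernel have the same finite `L²`-norm, for almost every `y`. -/
theorem result (a b : EReal) (_hab : a < b) (N : (ℝ → ℂ) → ℝ → ℂ) (hN : IsNormalOp (leb a b) N)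
    (ν : ℝ → ℝ → ℂ) (hν : IsCarleman (leb a b) N ν) :
    ∀ᵐ y ∂(leb a b), sqInt (leb a b) (fun x => ν x y) = sqInt (leb a b) (fun x => ν y x) ∧
      sqInt (leb a b) (fun x => ν x y) < ⊤ := by
  set μ := leb a b with hμ
  obtain ⟨hN, M, hM, hadj, hc⟩ := hN
  -- the operators on classes
  set N' : Lp ℂ 2 μ → Lp ℂ 2 μ := fun f => (hN.memLp f (Lp.memLp f)).toLp _ with hN'
  set M' : Lp ℂ 2 μ → Lp ℂ 2 μ := fun f => (hM.memLp f (Lp.memLp f)).toLp _ with hM'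
  have cN : ∀ f : Lp ℂ 2 μ, (N' f : ℝ → ℂ) =ᵐ[μ] N f := fun f => MemLp.coeFn_toLp _
  have cM : ∀ f : Lp ℂ 2 μ, (M' f : ℝ → ℂ) =ᵐ[μ] M f := fun f => MemLp.coeFn_toLp _
  have adj : ∀ f g, ⟪M' f, g⟫_ℂ = ⟪f, N' g⟫_ℂ := by
    intro f g
    rw [L2.inner_def, L2.inner_def]
    have h1 := hadj f g (Lp.memLp f) (Lp.memLp g)
    have h2 := congrArg (starRingEnd ℂ) h1
    rw [← integral_conj, ← integral_conj] at h2
    have e1 : ∫ x, ⟪(M' f : ℝ → ℂ) x, (g : ℝ → ℂ) x⟫_ℂ ∂μ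
        = ∫ x, (starRingEnd ℂ) (M f x * (starRingEnd ℂ) ((g : ℝ → ℂ) x)) ∂μ := by
      apply integral_congr_ae
      filter_upwards [cM f] with x hx
      rw [hx]
      simp [mul_comm]
    have e2 : ∫ x, ⟪(f : ℝ → ℂ) x, (N' g : ℝ → ℂ) x⟫_ℂ ∂μ
        = ∫ x, (starRingEnd ℂ) ((f : ℝ → ℂ) x * (starRingEnd ℂ) (N g x)) ∂μ := by
      apply integral_congr_ae
      filter_upwards [cN g] with x hx
      rw [hx]
      simp [mul_comm]
    rw [e1, e2, h2]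
  have com : ∀ f, N' (M' f) = M' (N' f) := by
    intro f
    apply Lp.ext
    have h1 : N (M' f) =ᵐ[μ] N (M f) := hN.congr _ _ (Lp.memLp _) (cM f)
    have h2 : M (N' f) =ᵐ[μ] M (N f) := hM.congr _ _ (Lp.memLp _) (cN f)
    exact ((cN (M' f)).trans h1).trans ((hc f (Lp.memLp f)).trans ((cM (N' f)).trans h2).symm)
  have h1 : ∀ f, ‖M' f‖ = ‖N' f‖ := by
    intro f
    have h2 : ⟪M' f, M' f⟫_ℂ = ⟪N' f, N' f⟫_ℂ := by
      rw [adj, com, ← inner_conj_symm, adj, inner_conj_symm]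
    have h3 : ‖M' f‖ ^ 2 = ‖N' f‖ ^ 2 := by
      have h4 := inner_self_eq_norm_sq_to_K (𝕜 := ℂ) (M' f)
      have h5 := inner_self_eq_norm_sq_to_K (𝕜 := ℂ) (N' f)
      rw [h2, h5] at h4
      exact_mod_cast h4.symm
    exact (sq_eq_sq₀ (norm_nonneg _) (norm_nonneg _)).1 h3
  have hν' : IsCarlemanAux μ N' ν := by
    refine ⟨hν.1, hν.2.1, fun f => ?_⟩
    filter_upwards [cN f, hν.2.2 f (Lp.memLp f)] with x h1 h2
    rw [h1, h2]
  filter_upwards [rowsum_eq N' M' ν hν' adj h1, hν.2.1] with y hy hy2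
  exact ⟨hy, lt_of_le_of_lt (le_of_eq hy) hy2⟩

end Pool.Agent.Results.MP_0ee9ff_an.NormalCarleman
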